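import Pool.Agent.H11.LD.Targets

/-!
# Least Laplacian index: every cluster is joined to at most two other clusters
-/

set_option autoImplicit false

open Finset Classical

namespace Pool.Agent.H19.LD

open Pool.Agent.H11.LD Pool.Agent.H9.Lap

theorem pf_DG2 (hLB : T_LB) : T_DG2 := by
  intro V _ G g m p c μ hC hm hμ hU hlt i k₁ k₂ k₃ h1 h2 h3 h12 h13 h23 e1 e2 e3
  obtain ⟨a₁, b₁, hab1, ha1, hb1⟩ := e1
  obtain ⟨a₂, b₂, hab2, ha2, hb2⟩ := e2
  obtain ⟨a₃, b₃, hab3, ha3, hb3⟩ := e3
  set E : Finset (V × V) := {(a₁, b₁), (a₂, b₂), (a₃, b₃)} with hE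
  set A : Fin g → ℝ := fun k => if k = i then 3 else if k = k₁ ∨ k = k₂ ∨ k = k₃ then 1 else 0
    with hA
  set s : Fin g → ℝ := fun k => if k = i then 1 else -1 with hs
  have hmem : ∀ e ∈ E, e = (a₁, b₁) ∨ e = (a₂, b₂) ∨ e = (a₃, b₃) := by
    intro e he
    simpa [hE] using he
  have hpE : ∀ e ∈ E, p e.1 = i ∧ p e.2 ≠ i := by
    intro e he
    rcases hmem e he with rfl | rfl | rfl
    · exact ⟨ha1, by show p b₁ ≠ i; rw [hb1]; exact h1⟩
    · exact ⟨ha2, by show p b₂ ≠ i; rw [hb2]; exact h2⟩
    · exact ⟨ha3, by show p b₃ ≠ i; rw [hb3]; exact h3⟩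
  have hsys : Sys G p E A s := by
    refine ⟨fun k => ?_, fun k => ?_, fun e he => ?_, fun e he => ?_, fun e he he2 => ?_⟩
    · simp only [hA]
      split_ifs <;> norm_num
    · simp only [hs]
      split_ifs
      · exact Or.inl rfl
      · exact Or.inr rfl
    · rcases hmem e he with rfl | rfl | rfl
      · exact hab1
      · exact hab2
      · exact hab3
    · obtain ⟨q1, q2⟩ := hpE e he
      simp only [hs]
      rw [if_pos q1, if_neg q2]
      norm_num
    · exact (hpE e he).2 (hpE _ he2).1
  have key := hLB V G g m p c E A s μ hC hm hsys hμ hU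
  have hw : ∀ e ∈ E, wt p A e ^ 2 = 16 := by
    intro e he
    have hAi : A i = 3 := by simp [hA]
    have hk1 : A k₁ = 1 := by simp [hA, h1]
    have hk2 : A k₂ = 1 := by simp [hA, h2]
    have hk3 : A k₃ = 1 := by simp [hA, h3]
    rcases hmem e he with rfl | rfl | rfl
    · simp only [wt, ha1, hb1, hAi, hk1]; norm_num
    · simp only [wt, ha2, hb2, hAi, hk2]; norm_num
    · simp only [wt, ha3, hb3, hAi, hk3]; norm_num
  have hb12 : b₁ ≠ b₂ := fun h => h12 (by rw [← hb1, ← hb2, h])
  have hb13 : b₁ ≠ b₃ := fun h => h13 (by rw [← hb1, ← hb3, h])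
  have hb23 : b₂ ≠ b₃ := fun h => h23 (by rw [← hb2, ← hb3, h])
  have hcard : E.card = 3 := by
    rw [hE]
    rw [Finset.card_eq_three]
    refine ⟨(a₁, b₁), (a₂, b₂), (a₃, b₃), ?_, ?_, ?_, rfl⟩
    · intro h; exact hb12 (Prod.ext_iff.1 h).2
    · intro h; exact hb13 (Prod.ext_iff.1 h).2
    · intro h; exact hb23 (Prod.ext_iff.1 h).2
  rw [Finset.sum_congr rfl hw, Finset.sum_const, hcard] at key
  have hA2 : ∑ k, A k ^ 2 = 12 := by
    have hpt : ∀ k, A k ^ 2 = (if k = i then (9 : ℝ) else 0) + (if k = k₁ then (1 : ℝ) else 0) +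
        (if k = k₂ then (1 : ℝ) else 0) + (if k = k₃ then (1 : ℝ) else 0) := by
      intro k
      simp only [hA]
      by_cases q0 : k = i
      · subst q0
        simp only [if_true, if_neg h1.symm, if_neg h2.symm, if_neg h3.symm]
        norm_num
      · by_cases q1 : k = k₁
        · subst q1
          simp only [if_neg h1, true_or, if_true, if_neg h12, if_neg h13]
          norm_num
        · by_cases q2 : k = k₂
          · subst q2
            simp only [if_neg h2, true_or, or_true, if_true, if_neg h12.symm, if_neg h23]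
            norm_num
          · by_cases q3 : k = k₃
            · subst q3
              simp only [if_neg h3, or_true, if_true, if_neg h13.symm, if_neg h23.symm]
              norm_num
            · simp only [if_neg q0, q1, q2, q3, or_self, if_false]
              norm_num
    rw [Finset.sum_congr rfl fun k _ => hpt k]
    simp only [Finset.sum_add_distrib, Finset.sum_ite_eq', Finset.mem_univ, if_true]
    norm_num
  rw [hA2] at key
  norm_num at key
  linarith

end Pool.Agent.H19.LD
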