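import Pool.Agent.H11.LD.Targets

/-!
# Least Laplacian index: a row in the case of equality
-/

set_option autoImplicit false
set_option linter.unusedSectionVars false

open Finset Classical

namespace Pool.Agent.H19.LD.PTH

open Pool.Agent.H11.LD Pool.Agent.H9.Lap

section

variable {V : Type} [Fintype V] {G : SimpleGraph V} {g : ℕ} {p : V → Fin g}
    {pos : Fin g → ℕ} {u w : Fin g → V}

/-- The position of a row is onto. -/
theorem row_surj (hR : Row G p pos u w) (n : ℕ) (hn : n < g) : ∃ i, pos i = n := by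
  have hinj : Function.Injective (fun i : Fin g => (⟨pos i, hR.lt i⟩ : Fin g)) := by
    intro i j h
    exact hR.inj (Fin.mk.inj_iff.1 h)
  obtain ⟨i, hi⟩ := Finite.surjective_of_injective hinj ⟨n, hn⟩
  exact ⟨i, Fin.mk.inj_iff.1 hi⟩

/-- The inverse of the position. -/
theorem row_inv (hR : Row G p pos u w) (hg : 2 ≤ g) :
    ∃ q : ℕ → Fin g, ∀ n, n < g → pos (q n) = n := by
  refine ⟨fun n => if h : n < g then (row_surj hR n h).choose else ⟨0, by omega⟩, fun n hn => ?_⟩
  simp only [dif_pos hn]
  exact (row_surj hR n hn).choose_spec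

/-- The links of the row. -/
noncomputable def lnk (g : ℕ) (u w : Fin g → V) (q : ℕ → Fin g) : Finset (V × V) :=
  (range (g - 1)).image fun n => (u (q n), w (q (n + 1)))

variable {q : ℕ → Fin g}

theorem mem_lnk {e : V × V} : e ∈ lnk g u w q ↔ ∃ n, n + 1 < g ∧ e = (u (q n), w (q (n + 1))) := by
  unfold lnk
  rw [Finset.mem_image]
  constructor
  · rintro ⟨n, hn, rfl⟩
    rw [Finset.mem_range] at hn
    exact ⟨n, by omega, rfl⟩
  · rintro ⟨n, hn, rfl⟩
    exact ⟨n, by rw [Finset.mem_range]; omega, rfl⟩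

theorem q_pos (hR : Row G p pos u w) (hq : ∀ n, n < g → pos (q n) = n) (i : Fin g) :
    q (pos i) = i := hR.inj (hq _ (hR.lt i))

theorem lnk_p (hR : Row G p pos u w) (hq : ∀ n, n < g → pos (q n) = n) {e : V × V}
    (he : e ∈ lnk g u w q) : pos (p e.2) = pos (p e.1) + 1 ∧ e.1 = u (p e.1) ∧ e.2 = w (p e.2) := by
  rw [mem_lnk] at he
  obtain ⟨n, hn, rfl⟩ := he
  refine ⟨?_, ?_, ?_⟩
  · show pos (p (w (q (n + 1)))) = pos (p (u (q n))) + 1
    rw [hR.pu, hR.pw, hq _ (by omega), hq _ (by omega)]
  · show u (q n) = u (p (u (q n)))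
    rw [hR.pu]
  · show w (q (n + 1)) = w (p (w (q (n + 1))))
    rw [hR.pw]

theorem lnk_mem (hR : Row G p pos u w) (hq : ∀ n, n < g → pos (q n) = n) {i k : Fin g}
    (h : pos k = pos i + 1) : (u i, w k) ∈ lnk g u w q := by
  rw [mem_lnk]
  refine ⟨pos i, ?_, ?_⟩
  · rw [← h]
    exact hR.lt k
  · rw [q_pos hR hq, ← h, q_pos hR hq]

/-- the signs -/
noncomputable def sgn (pos : Fin g → ℕ) (i : Fin g) : ℝ := (-1) ^ pos i

theorem sgn_or (i : Fin g) : sgn pos i = 1 ∨ sgn pos i = -1 := neg_one_pow_eq_or ℝ (pos i)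

theorem sys (hR : Row G p pos u w) (hq : ∀ n, n < g → pos (q n) = n)
    (hsn : ∀ i, i < g → 0 < sn g i) :
    Sys G p (lnk g u w q) (fun i => sn g (pos i)) (sgn pos) := by
  refine ⟨fun i => (hsn _ (hR.lt i)).le, fun i => sgn_or i, ?_, ?_, ?_⟩
  · intro e he
    obtain ⟨h1, h2, h3⟩ := lnk_p hR hq he
    rw [h2, h3]
    exact hR.adj _ _ h1
  · intro e he
    obtain ⟨h1, -, -⟩ := lnk_p hR hq he
    unfold sgn
    rw [h1, pow_succ]
    ring
  · intro e he he2
    obtain ⟨h1, -, -⟩ := lnk_p hR hq he
    obtain ⟨h2, -, -⟩ := lnk_p hR hq he2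
    have h3 : pos (p e.1) = pos (p e.2) + 1 := h2
    omega

theorem sum_pos (hR : Row G p pos u w) (hq : ∀ n, n < g → pos (q n) = n) (F : ℕ → ℝ) :
    ∑ i : Fin g, F (pos i) = ∑ n ∈ range g, F n := by
  refine Finset.sum_bij (fun i _ => pos i) ?_ ?_ ?_ ?_
  · intro i _
    rw [Finset.mem_range]
    exact hR.lt i
  · intro i _ j _ h
    exact hR.inj h
  · intro n hn
    rw [Finset.mem_range] at hn
    exact ⟨q n, Finset.mem_univ _, hq n hn⟩
  · intro i _
    rfl

theorem sum_wt (hR : Row G p pos u w) (hq : ∀ n, n < g → pos (q n) = n) :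
    ∑ e ∈ lnk g u w q, wt p (fun i => sn g (pos i)) e ^ 2 =
      ∑ n ∈ range (g - 1), (sn g n + sn g (n + 1)) ^ 2 := by
  unfold lnk
  rw [Finset.sum_image]
  · refine Finset.sum_congr rfl fun n hn => ?_
    rw [Finset.mem_range] at hn
    show (sn g (pos (p (u (q n)))) + sn g (pos (p (w (q (n + 1)))))) ^ 2 = _
    rw [hR.pu, hR.pw, hq _ (by omega), hq _ (by omega)]
  · intro a ha b hb h
    have ha' : a < g - 1 := Finset.mem_range.1 ha
    have hb' : b < g - 1 := Finset.mem_range.1 hb
    have h1 : p (u (q a)) = p (u (q b)) := congrArg (fun e : V × V => p e.1) h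
    rw [hR.pu, hR.pu] at h1
    have h2 := congrArg pos h1
    rw [hq _ (by omega), hq _ (by omega)] at h2
    exact h2

/-- The load of a vertex. -/
theorem load_eq (hR : Row G p pos u w) (hq : ∀ n, n < g → pos (q n) = n)
    (hd : ∀ i, 0 < pos i → pos i + 1 < g → u i ≠ w i) (a : V) :
    load p (lnk g u w q) (fun i => sn g (pos i)) a =
      (if a = u (p a) ∧ pos (p a) + 1 < g then sn g (pos (p a)) + sn g (pos (p a) + 1) else 0) +
      (if a = w (p a) ∧ 0 < pos (p a) then sn g (pos (p a) - 1) + sn g (pos (p a)) else 0) := by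
  unfold load
  have hset : (lnk g u w q).filter (fun e => e.1 = a ∨ e.2 = a) =
      (if a = u (p a) ∧ pos (p a) + 1 < g then {(u (p a), w (q (pos (p a) + 1)))} else ∅) ∪
      (if a = w (p a) ∧ 0 < pos (p a) then {(u (q (pos (p a) - 1)), w (p a))} else ∅) := by
    ext e
    rw [Finset.mem_filter, Finset.mem_union]
    constructor
    · rintro ⟨he, h⟩
      obtain ⟨h1, h2, h3⟩ := lnk_p hR hq he
      rcases h with h | h
      · left
        rw [h] at h1 h2
        have h4 : pos (p a) + 1 < g := by rw [← h1]; exact hR.lt _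
        rw [if_pos ⟨h2, h4⟩, Finset.mem_singleton]
        refine Prod.ext_iff.2 ⟨h.trans h2, ?_⟩
        show e.2 = w (q (pos (p a) + 1))
        rw [← h1, q_pos hR hq]
        exact h3
      · right
        rw [h] at h1 h3
        have h4 : 0 < pos (p a) := by omega
        rw [if_pos ⟨h3, h4⟩, Finset.mem_singleton]
        refine Prod.ext_iff.2 ⟨?_, h.trans h3⟩
        show e.1 = u (q (pos (p a) - 1))
        rw [show pos (p a) - 1 = pos (p e.1) by omega, q_pos hR hq]
        exact h2
    · rintro (h | h)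
      · split_ifs at h with h1
        · rw [Finset.mem_singleton] at h
          subst h
          refine ⟨lnk_mem hR hq ?_, Or.inl h1.1.symm⟩
          rw [hq _ h1.2]
        · exact absurd h (Finset.notMem_empty _)
      · split_ifs at h with h1
        · rw [Finset.mem_singleton] at h
          subst h
          have h2 := hR.lt (p a)
          refine ⟨lnk_mem hR hq ?_, Or.inr h1.1.symm⟩
          rw [hq _ (by omega)]
          omega
        · exact absurd h (Finset.notMem_empty _)
  have hlt := hR.lt (p a)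
  by_cases h1 : a = u (p a) ∧ pos (p a) + 1 < g
  · have h2 : ¬ (a = w (p a) ∧ 0 < pos (p a)) := by
      rintro ⟨h3, h4⟩
      exact hd (p a) h4 h1.2 (h1.1.symm.trans h3)
    rw [hset, if_pos h1, if_neg h2, if_pos h1, if_neg h2, Finset.union_empty,
      Finset.sum_singleton, add_zero]
    show sn g (pos (p (u (p a)))) + sn g (pos (p (w (q (pos (p a) + 1))))) = _
    rw [hR.pu, hR.pw, hq _ h1.2]
  · by_cases h2 : a = w (p a) ∧ 0 < pos (p a)
    · rw [hset, if_neg h1, if_pos h2, if_neg h1, if_pos h2, Finset.empty_union,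
        Finset.sum_singleton, zero_add]
      show sn g (pos (p (u (q (pos (p a) - 1))))) + sn g (pos (p (w (p a)))) = _
      rw [hR.pu, hR.pw, hq _ (by omega)]
    · rw [hset, if_neg h1, if_neg h2, if_neg h1, if_neg h2, Finset.empty_union,
        Finset.sum_empty, add_zero]

end

theorem pf_PTH (hLBE : T_LBE) (hSIN : T_SIN) : T_PTH := by
  intro V _ G g m p c pos u w μ hC hm hg hR hμ hU heq
  obtain ⟨q, hq⟩ := row_inv hR hg
  obtain ⟨hs1, hs2, -, -, -, hs6⟩ := hSIN g hg
  have hsys := sys (q := q) hR hq hs1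
  obtain ⟨hM, hB⟩ := hLBE V G g m p c (lnk g u w q) (fun i => sn g (pos i)) (sgn pos) μ hC hm
    hsys hμ hU (fun i => hs1 _ (hR.lt i)) (by
      rw [sum_wt hR hq, hs6, heq]
      rw [sum_pos hR hq (fun n => sn g n ^ 2)])
  have hd : ∀ i, 0 < pos i → pos i + 1 < g → u i ≠ w i := by
    intro i h0 h1
    have he := lnk_mem (q := q) hR hq (i := i) (k := q (pos i + 1)) (hq _ h1)
    have he' := lnk_mem (q := q) hR hq (i := q (pos i - 1)) (k := i) (by
      rw [hq _ (by omega)]; omega)
    have hne : (u i, w (q (pos i + 1))) ≠ (u (q (pos i - 1)), w i) := by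
      intro h
      have h2 : p (u i) = p (u (q (pos i - 1))) := congrArg (fun e : V × V => p e.1) h
      rw [hR.pu, hR.pu] at h2
      have h3 := congrArg pos h2
      rw [hq _ (by omega)] at h3
      omega
    exact (hM _ he _ he' hne).2.1
  have hμ3 : 0 < μ - 3 := by linarith
  refine ⟨hd, ?_, ?_⟩
  · intro a b hab hpab hac hbc
    have hn : ∀ x y : V, p x = p y → (x, y) ∉ lnk g u w q := by
      intro x y hxy he
      obtain ⟨h1, -, -⟩ := lnk_p hR hq he
      have h2 : pos (p y) = pos (p x) + 1 := h1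
      rw [hxy] at h2
      omega
    have h1 := hB a b hab (hn a b hpab) (hn b a hpab.symm) hac hbc
    have hsg : sgn pos (p a) ≠ 0 := by
      rcases sgn_or (pos := pos) (p a) with h | h <;> rw [h] <;> norm_num
    rw [← hpab] at h1
    have h2 := mul_left_cancel₀ hsg h1
    have h3 : load p (lnk g u w q) (fun i => sn g (pos i)) a =
        load p (lnk g u w q) (fun i => sn g (pos i)) b := by
      have h4 := add_left_cancel h2
      field_simp at h4
      exact h4
    rw [load_eq hR hq hd, load_eq hR hq hd] at h3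
    have hlt := hR.lt (p a)
    have hpos : ∀ i, i < g → 0 < sn g i := hs1
    rw [← hpab] at h3
    unfold UsedR
    rw [← hpab]
    by_cases ha1 : a = u (p a) ∧ pos (p a) + 1 < g
    · have ha2 : ¬ (a = w (p a) ∧ 0 < pos (p a)) := by
        rintro ⟨h5, h6⟩
        exact hd (p a) h6 ha1.2 (ha1.1.symm.trans h5)
      have hb1 : ¬ (b = u (p a) ∧ pos (p a) + 1 < g) := by
        rintro ⟨h5, -⟩
        exact hab.ne (ha1.1.trans h5.symm)
      rw [if_pos ha1, if_neg ha2, if_neg hb1] at h3
      have h7 := hpos _ hlt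
      have h8 := hpos _ ha1.2
      by_cases hb2 : b = w (p a) ∧ 0 < pos (p a)
      · rw [if_pos hb2] at h3
        right
        refine ⟨Or.inl ha1, Or.inr hb2, ?_⟩
        have h9 : sn g (pos (p a) + 1) = sn g (pos (p a) - 1) := by linarith
        rcases hs2 _ _ ha1.2 (by omega) h9 with h10 | h10 <;> omega
      · rw [if_neg hb2] at h3
        linarith
    · by_cases ha2 : a = w (p a) ∧ 0 < pos (p a)
      · have hb2 : ¬ (b = w (p a) ∧ 0 < pos (p a)) := by
          rintro ⟨h5, -⟩
          exact hab.ne (ha2.1.trans h5.symm)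
        rw [if_neg ha1, if_pos ha2, if_neg hb2] at h3
        have h7 := hpos _ hlt
        have h8 := hpos (pos (p a) - 1) (by omega)
        by_cases hb1 : b = u (p a) ∧ pos (p a) + 1 < g
        · rw [if_pos hb1] at h3
          right
          refine ⟨Or.inr ha2, Or.inl hb1, ?_⟩
          have h9 : sn g (pos (p a) + 1) = sn g (pos (p a) - 1) := by linarith
          rcases hs2 _ _ hb1.2 (by omega) h9 with h10 | h10 <;> omega
        · rw [if_neg hb1] at h3
          linarith
      · rw [if_neg ha1, if_neg ha2] at h3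
        left
        refine ⟨fun h => h.elim ha1 ha2, fun h => ?_⟩
        have h7 := hpos _ hlt
        by_cases hb1 : b = u (p a) ∧ pos (p a) + 1 < g
        · rw [if_pos hb1] at h3
          have h8 := hpos _ hb1.2
          by_cases hb2 : b = w (p a) ∧ 0 < pos (p a)
          · rw [if_pos hb2] at h3
            have h9 := hpos (pos (p a) - 1) (by omega)
            linarith
          · rw [if_neg hb2] at h3
            linarith
        · by_cases hb2 : b = w (p a) ∧ 0 < pos (p a)
          · rw [if_neg hb1, if_pos hb2] at h3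
            have h9 := hpos (pos (p a) - 1) (by omega)
            linarith
          · exact h.elim hb1 hb2
  · intro a b hab hpab
    by_cases he1 : (a, b) ∈ lnk g u w q
    · left
      exact lnk_p hR hq he1
    by_cases he2 : (b, a) ∈ lnk g u w q
    · right; left
      exact lnk_p hR hq he2
    right; right
    have hac : a ≠ c (p a) := by
      intro h
      rw [h] at hab
      exact hpab (hC.hub _ _ hab).symm
    have hbc : b ≠ c (p b) := by
      intro h
      rw [h] at hab
      exact hpab (hC.hub _ _ hab.symm)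
    have h1 := hB a b hab he1 he2 hac hbc
    have hl : ∀ x, 0 < sn g (pos (p x)) +
        load p (lnk g u w q) (fun i => sn g (pos i)) x / (μ - 3) := by
      intro x
      have h2 : 0 ≤ load p (lnk g u w q) (fun i => sn g (pos i)) x := by
        unfold load wt
        refine Finset.sum_nonneg fun e _ => ?_
        exact add_nonneg (hs1 _ (hR.lt _)).le (hs1 _ (hR.lt _)).le
      have h3 := hs1 _ (hR.lt (p x))
      positivity
    have hla := hl a
    have hlb := hl b
    have h4 : sgn pos (p a) = sgn pos (p b) := by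
      rcases sgn_or (pos := pos) (p a) with h | h <;> rcases sgn_or (pos := pos) (p b) with h' | h' <;>
        rw [h, h'] at h1 ⊢ <;> exfalso <;> linarith
    unfold sgn at h4
    rcases Nat.even_or_odd (pos (p a)) with h5 | h5 <;>
      rcases Nat.even_or_odd (pos (p b)) with h6 | h6
    · rw [Nat.even_iff.1 h5, Nat.even_iff.1 h6]
    · rw [h5.neg_one_pow, h6.neg_one_pow] at h4
      norm_num at h4
    · rw [h5.neg_one_pow, h6.neg_one_pow] at h4
      norm_num at h4
    · rw [Nat.odd_iff.1 h5, Nat.odd_iff.1 h6]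

end Pool.Agent.H19.LD.PTH

namespace Pool.Agent.H19.LD

open Pool.Agent.H11.LD

theorem pf_PTH (hLBE : T_LBE) (hSIN : T_SIN) : T_PTH := PTH.pf_PTH hLBE hSIN

end Pool.Agent.H19.LD
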