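import Pool.Agent.H11.LD.Targets

/-!
# Least Laplacian index: no edge between the two ends of links in the middle cluster
-/

set_option autoImplicit false
set_option linter.unnecessarySimpa false

open Finset Classical

namespace Pool.Agent.H19.LD

open Pool.Agent.H11.LD Pool.Agent.H9.Lap

/-- A lower bound of the quadratic form by the edges of a subset. -/
theorem qf_ge {V : Type} [Fintype V] (G : SimpleGraph V) (f : V → ℝ) (E : Finset (V × V))
    (hadj : ∀ e ∈ E, G.Adj e.1 e.2) (hori : ∀ e ∈ E, (e.2, e.1) ∉ E) :
    ∑ e ∈ E, (f e.1 - f e.2) ^ 2 ≤ qf G f := by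
  have h1 : ∑ v, ∑ w ∈ nb G v, (f v - f w) ^ 2 =
      ∑ e ∈ univ.filter (fun e : V × V => G.Adj e.1 e.2), (f e.1 - f e.2) ^ 2 := by
    rw [Finset.sum_filter, Fintype.sum_prod_type]
    refine Finset.sum_congr rfl fun v _ => ?_
    rw [nb, Finset.sum_filter]
  have h2 : ∑ e ∈ E, (f e.1 - f e.2) ^ 2 =
      ∑ e ∈ E.image Prod.swap, (f e.1 - f e.2) ^ 2 := by
    rw [Finset.sum_image (fun a _ b _ h => Prod.swap_injective h)]
    refine Finset.sum_congr rfl fun e _ => ?_
    simp only [Prod.fst_swap, Prod.snd_swap]
    ring
  have h3 : Disjoint E (E.image Prod.swap) := by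
    rw [Finset.disjoint_left]
    intro e he he2
    rw [Finset.mem_image] at he2
    obtain ⟨e', he', rfl⟩ := he2
    exact hori e' he' he
  have h4 : ∑ e ∈ E ∪ E.image Prod.swap, (f e.1 - f e.2) ^ 2 ≤
      ∑ e ∈ univ.filter (fun e : V × V => G.Adj e.1 e.2), (f e.1 - f e.2) ^ 2 := by
    apply Finset.sum_le_sum_of_subset_of_nonneg
    · intro e he
      rw [Finset.mem_union] at he
      rw [Finset.mem_filter]
      refine ⟨Finset.mem_univ _, ?_⟩
      rcases he with he | he
      · exact hadj e he
      · rw [Finset.mem_image] at he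
        obtain ⟨e', he', rfl⟩ := he
        exact (hadj e' he').symm
    · intro e _ _
      positivity
  rw [Finset.sum_union h3, ← h2] at h4
  unfold qf
  rw [h1]
  linarith

/-- A test function given on the image of an injective map. -/
theorem qf_emb {V : Type} [Fintype V] (G : SimpleGraph V) {μ : ℝ} (hU : Ub G μ) {N : ℕ}
    (φ : Fin N → V) (hφ : Function.Injective φ) (val : Fin N → ℝ) (E : Finset (Fin N × Fin N))
    (hlt : ∀ e ∈ E, e.1 < e.2) (hadj : ∀ e ∈ E, G.Adj (φ e.1) (φ e.2)) :
    ∑ e ∈ E, (val e.1 - val e.2) ^ 2 ≤ μ * ∑ a, val a ^ 2 := by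
  set f : V → ℝ := fun v => ∑ a, if φ a = v then val a else 0 with hf
  have hfv : ∀ a, f (φ a) = val a := by
    intro a
    simp only [hf]
    rw [Finset.sum_eq_single a]
    · rw [if_pos rfl]
    · intro b _ hb
      rw [if_neg fun h => hb (hφ h)]
    · intro h
      exact absurd (Finset.mem_univ _) h
  have hinj : Function.Injective (Prod.map φ φ) := hφ.prodMap hφ
  have h1 := qf_ge G f (E.image (Prod.map φ φ)) (by
    intro e he
    rw [Finset.mem_image] at he
    obtain ⟨e', he', rfl⟩ := he
    exact hadj e' he') (by
    intro e he he2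
    rw [Finset.mem_image] at he he2
    obtain ⟨e', he', rfl⟩ := he
    obtain ⟨e'', he'', h⟩ := he2
    have h5 := Prod.ext_iff.1 h
    have h6 : e''.1 = e'.2 := hφ h5.1
    have h7 : e''.2 = e'.1 := hφ h5.2
    have h8 := hlt e' he'
    have h9 := hlt e'' he''
    rw [h6, h7] at h9
    exact absurd h9 (not_lt.2 h8.le))
  rw [Finset.sum_image (fun a _ b _ h => hinj h)] at h1
  have h2 : ∑ v, f v ^ 2 = ∑ a, val a ^ 2 := by
    have h3 : ∑ v, f v ^ 2 = ∑ v ∈ univ.image φ, f v ^ 2 := by
      symm
      apply Finset.sum_subset (Finset.subset_univ _)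
      intro v _ hv
      have : f v = 0 := by
        simp only [hf]
        apply Finset.sum_eq_zero
        intro a _
        rw [if_neg]
        intro h
        exact hv (by rw [← h]; exact Finset.mem_image_of_mem _ (Finset.mem_univ _))
      rw [this]
      norm_num
    rw [h3, Finset.sum_image (fun a _ b _ h => hφ h)]
    exact Finset.sum_congr rfl fun a _ => by rw [hfv]
  have h4 := hU f
  rw [h2] at h4
  refine le_trans (le_of_eq ?_) (le_trans h1 h4)
  refine Finset.sum_congr rfl fun e _ => ?_
  simp only [Prod.map_fst, Prod.map_snd, hfv]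

/-- The position of a row is onto. -/
theorem row_surj {V : Type} [Fintype V] {G : SimpleGraph V} {g : ℕ} {p : V → Fin g}
    {pos : Fin g → ℕ} {u w : Fin g → V} (hR : Row G p pos u w) (n : ℕ) (hn : n < g) :
    ∃ i, pos i = n := by
  have hinj : Function.Injective (fun i : Fin g => (⟨pos i, hR.lt i⟩ : Fin g)) := by
    intro i j h
    exact hR.inj (Fin.mk.inj_iff.1 h)
  obtain ⟨i, hi⟩ := Finite.surjective_of_injective hinj ⟨n, hn⟩
  exact ⟨i, Fin.mk.inj_iff.1 hi⟩

/-- The two other leaves of a cluster of four vertices. -/
theorem two_leaves {V : Type} [Fintype V] {G : SimpleGraph V} {g : ℕ} {p : V → Fin g}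
    {c : Fin g → V} (hC : Clu G g 4 p c) (j : Fin g) (x : V) (hx : p x = j) (hxc : x ≠ c j) :
    ∃ l l', p l = j ∧ p l' = j ∧ l ≠ l' ∧ l ≠ c j ∧ l' ≠ c j ∧ l ≠ x ∧ l' ≠ x := by
  have h1 := hC.card j
  have h2 : ((univ.filter fun v => p v = j).erase (c j)).card = 3 := by
    rw [Finset.card_erase_of_mem (by rw [Finset.mem_filter]; exact ⟨Finset.mem_univ _, hC.pc j⟩),
      h1]
  have h3 : (((univ.filter fun v => p v = j).erase (c j)).erase x).card = 2 := by
    rw [Finset.card_erase_of_mem (by
      rw [Finset.mem_erase, Finset.mem_filter]; exact ⟨hxc, Finset.mem_univ _, hx⟩), h2]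
  obtain ⟨l, l', hll, heq⟩ := Finset.card_eq_two.1 h3
  have h4 : ∀ y, (y = l ∨ y = l') → y ≠ x ∧ y ≠ c j ∧ p y = j := by
    intro y hy
    have h5 : y ∈ (((univ.filter fun v => p v = j).erase (c j)).erase x) := by
      rw [heq]
      simpa using hy
    rw [Finset.mem_erase, Finset.mem_erase, Finset.mem_filter] at h5
    exact ⟨h5.1, h5.2.1, h5.2.2.2⟩
  obtain ⟨q1, q2, q3⟩ := h4 l (Or.inl rfl)
  obtain ⟨r1, r2, r3⟩ := h4 l' (Or.inr rfl)
  exact ⟨l, l', q3, r3, hll, q2, r2, q1, r1⟩

theorem pf_QM : T_QM := by
  intro V _ G g m p c pos u w μ hC hR hU h3 h4 hm i hi0 hi1 huw hadj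
  by_contra hm5
  obtain ⟨k, hk⟩ := row_surj hR (pos i + 1) hi1
  obtain ⟨k', hk'⟩ := row_surj hR (pos i - 1) (by omega)
  have hki : k ≠ i := by rintro rfl; omega
  have hki' : k' ≠ i := by rintro rfl; omega
  have hkk : k ≠ k' := by rintro rfl; omega
  have hl1 : G.Adj (u i) (w k) := hR.adj i k hk
  have hl2 : G.Adj (u k') (w i) := hR.adj k' i (by omega)
  have hpu := hR.pu
  have hpw := hR.pw
  have hui : u i ≠ c i := by
    intro h
    rw [h] at hl1
    exact hki ((hpw k).symm.trans (hC.hub i _ hl1))
  have hwi : w i ≠ c i := by
    intro h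
    rw [h] at hl2
    exact hki' ((hpu k').symm.trans (hC.hub i _ hl2.symm))
  have hwk : w k ≠ c k := by
    intro h
    rw [h] at hl1
    exact hki.symm ((hpu i).symm.trans (hC.hub k _ hl1.symm))
  have huk : u k' ≠ c k' := by
    intro h
    rw [h] at hl2
    exact hki'.symm ((hpw i).symm.trans (hC.hub k' _ hl2))
  have star : ∀ j v, p v = j → v ≠ c j → G.Adj (c j) v := by
    rintro j v rfl hv
    exact hC.star v hv
  have hne : ∀ a b : V, p a ≠ p b → a ≠ b := fun a b h h' => h (by rw [h'])
  have hm34 : m = 3 ∨ m = 4 := by omega
  rcases hm34 with rfl | rfl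
  · have key := qf_emb G hU ![c i, u i, w i, w k, c k, u k', c k'] (by
      intro a b h
      have hpab : ![i, i, i, k, k, k', k'] a = ![i, i, i, k, k, k', k'] b := by
        have := congrArg p h
        fin_cases a <;> fin_cases b <;> simpa [hpu, hpw, hC.pc] using this
      fin_cases a <;> fin_cases b <;>
        first
        | rfl
        | exact absurd h (by simpa using hui)
        | exact absurd h (by simpa using hui.symm)
        | exact absurd h (by simpa using hwi)
        | exact absurd h (by simpa using hwi.symm)
        | exact absurd h (by simpa using huw)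
        | exact absurd h (by simpa using huw.symm)
        | exact absurd h (by simpa using hwk)
        | exact absurd h (by simpa using hwk.symm)
        | exact absurd h (by simpa using huk)
        | exact absurd h (by simpa using huk.symm)
        | exact absurd hpab (by simpa using hki)
        | exact absurd hpab (by simpa using hki.symm)
        | exact absurd hpab (by simpa using hki')
        | exact absurd hpab (by simpa using hki'.symm)
        | exact absurd hpab (by simpa using hkk)
        | exact absurd hpab (by simpa using hkk.symm))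
      ![0, 1, -1, -1/2, 0, 1/2, 0] {(0, 1), (0, 2), (1, 2), (1, 3), (2, 5), (3, 4), (5, 6)}
      (by decide) (by
        intro e he
        simp only [Finset.mem_insert, Finset.mem_singleton] at he
        rcases he with rfl | rfl | rfl | rfl | rfl | rfl | rfl
        · exact star i _ (hpu i) hui
        · exact star i _ (hpw i) hwi
        · exact hadj
        · exact hl1
        · exact hl2.symm
        · exact (star k _ (hpw k) hwk).symm
        · exact (star k' _ (hpu k') huk).symm)
    have h31 := h3 rfl
    have hs1 : ∑ a, (![0, 1, -1, -1/2, 0, 1/2, 0] : Fin 7 → ℝ) a ^ 2 = 5 / 2 := by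
      simp [Fin.sum_univ_succ]
      norm_num
    rw [hs1] at key
    have hs2 : ∑ e ∈ ({(0, 1), (0, 2), (1, 2), (1, 3), (2, 5), (3, 4), (5, 6)} :
        Finset (Fin 7 × Fin 7)), ((![0, 1, -1, -1/2, 0, 1/2, 0] : Fin 7 → ℝ) e.1 -
          (![0, 1, -1, -1/2, 0, 1/2, 0] : Fin 7 → ℝ) e.2) ^ 2 = 11 := by
      rw [Finset.sum_insert (by decide), Finset.sum_insert (by decide),
        Finset.sum_insert (by decide), Finset.sum_insert (by decide),
        Finset.sum_insert (by decide), Finset.sum_insert (by decide), Finset.sum_singleton]
      simp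
      norm_num
    rw [hs2] at key
    linarith
  · obtain ⟨l, l', pl, pl', hll, hlc, hlc', hlx, hlx'⟩ := two_leaves hC k (w k) (hpw k) hwk
    obtain ⟨r, r', pr, pr', hrr, hrc, hrc', hrx, hrx'⟩ := two_leaves hC k' (u k') (hpu k') huk
    have key := qf_emb G hU ![c i, u i, w i, w k, c k, l, l', u k', c k', r, r'] (by
      intro a b h
      have hpab : ![i, i, i, k, k, k, k, k', k', k', k'] a =
          ![i, i, i, k, k, k, k, k', k', k', k'] b := by
        have := congrArg p h
        fin_cases a <;> fin_cases b <;> simpa [hpu, hpw, hC.pc, pl, pl', pr, pr'] using this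
      fin_cases a <;> fin_cases b <;>
        first
        | rfl
        | exact absurd h (by simpa using hui)
        | exact absurd h (by simpa using hui.symm)
        | exact absurd h (by simpa using hwi)
        | exact absurd h (by simpa using hwi.symm)
        | exact absurd h (by simpa using huw)
        | exact absurd h (by simpa using huw.symm)
        | exact absurd h (by simpa using hwk)
        | exact absurd h (by simpa using hwk.symm)
        | exact absurd h (by simpa using huk)
        | exact absurd h (by simpa using huk.symm)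
        | exact absurd h (by simpa using hll)
        | exact absurd h (by simpa using hll.symm)
        | exact absurd h (by simpa using hlc)
        | exact absurd h (by simpa using hlc.symm)
        | exact absurd h (by simpa using hlc')
        | exact absurd h (by simpa using hlc'.symm)
        | exact absurd h (by simpa using hlx)
        | exact absurd h (by simpa using hlx.symm)
        | exact absurd h (by simpa using hlx')
        | exact absurd h (by simpa using hlx'.symm)
        | exact absurd h (by simpa using hrr)
        | exact absurd h (by simpa using hrr.symm)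
        | exact absurd h (by simpa using hrc)
        | exact absurd h (by simpa using hrc.symm)
        | exact absurd h (by simpa using hrc')
        | exact absurd h (by simpa using hrc'.symm)
        | exact absurd h (by simpa using hrx)
        | exact absurd h (by simpa using hrx.symm)
        | exact absurd h (by simpa using hrx')
        | exact absurd h (by simpa using hrx'.symm)
        | exact absurd hpab (by simpa using hki)
        | exact absurd hpab (by simpa using hki.symm)
        | exact absurd hpab (by simpa using hki')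
        | exact absurd hpab (by simpa using hki'.symm)
        | exact absurd hpab (by simpa using hkk)
        | exact absurd hpab (by simpa using hkk.symm))
      ![0, 1, -1, -3/5, 3/5, -1/6, -1/6, 3/5, -3/5, 1/6, 1/6]
      {(0, 1), (0, 2), (1, 2), (1, 3), (2, 7), (3, 4), (4, 5), (4, 6), (7, 8), (8, 9), (8, 10)}
      (by
        intro e he
        simp only [Finset.mem_insert, Finset.mem_singleton] at he
        rcases he with rfl | rfl | rfl | rfl | rfl | rfl | rfl | rfl | rfl | rfl | rfl <;>
          decide) (by
        intro e he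
        simp only [Finset.mem_insert, Finset.mem_singleton] at he
        rcases he with rfl | rfl | rfl | rfl | rfl | rfl | rfl | rfl | rfl | rfl | rfl
        · exact star i _ (hpu i) hui
        · exact star i _ (hpw i) hwi
        · exact hadj
        · exact hl1
        · exact hl2.symm
        · exact (star k _ (hpw k) hwk).symm
        · exact star k _ pl hlc
        · exact star k _ pl' hlc'
        · exact (star k' _ (hpu k') huk).symm
        · exact star k' _ pr hrc
        · exact star k' _ pr' hrc')
    have h41 := h4 rfl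
    have hs1 : ∑ a, (![0, 1, -1, -3/5, 3/5, -1/6, -1/6, 3/5, -3/5, 1/6, 1/6] : Fin 11 → ℝ) a ^ 2 =
        799 / 225 := by
      simp [Fin.sum_univ_succ]
      norm_num
    rw [hs1] at key
    have hs2 : ∑ e ∈ ({(0, 1), (0, 2), (1, 2), (1, 3), (2, 7), (3, 4), (4, 5), (4, 6), (7, 8),
        (8, 9), (8, 10)} : Finset (Fin 11 × Fin 11)),
        ((![0, 1, -1, -3/5, 3/5, -1/6, -1/6, 3/5, -3/5, 1/6, 1/6] : Fin 11 → ℝ) e.1 -
          (![0, 1, -1, -3/5, 3/5, -1/6, -1/6, 3/5, -3/5, 1/6, 1/6] : Fin 11 → ℝ) e.2) ^ 2 =
        3679 / 225 := by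
      rw [Finset.sum_insert (by decide), Finset.sum_insert (by decide),
        Finset.sum_insert (by decide), Finset.sum_insert (by decide),
        Finset.sum_insert (by decide), Finset.sum_insert (by decide),
        Finset.sum_insert (by decide), Finset.sum_insert (by decide),
        Finset.sum_insert (by decide), Finset.sum_insert (by decide), Finset.sum_singleton]
      simp
      norm_num
    rw [hs2] at key
    nlinarith

end Pool.Agent.H19.LD
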