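import Pool.Agent.H80.LD.Targets

/-!
Row PTB of the board ldp_modules (MP_47c37b_mp): pointwise bounds for the correlations.
-/

set_option autoImplicit false

open MeasureTheory SchwartzMap Filter Topology Metric
open scoped ENNReal ContDiff

namespace Pool.Agent.H19.LD

open Pool.Agent.H43.DPC (V S SD moment trans rot IsMAO Diag)
open Pool.Agent.H43.DPCS (Cond1 OffDiag)
open Pool.Agent.H80.LD

variable {d : ℕ}

/-- normed bumps as Schwartz functions -/
lemma exists_bump (x : V d) {r : ℝ} (hr : 0 < r) :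
    ∃ g : S d, (∀ y, 0 ≤ g y) ∧ ∫ y, g y = 1 ∧ (∀ y, g y ≠ 0 → ‖y - x‖ ≤ r) ∧
      HasCompactSupport g ∧ tsupport g ⊆ closedBall x r := by
  let φ : ContDiffBump x := ⟨r / 2, r, by linarith, by linarith⟩
  have h1 : HasCompactSupport (φ.normed (volume : Measure (V d))) := φ.hasCompactSupport_normed
  have h2 : ContDiff ℝ ∞ (φ.normed (volume : Measure (V d))) := φ.contDiff_normed
  have h3 : tsupport (φ.normed (volume : Measure (V d))) = closedBall x r := φ.tsupport_normed_eq
  have e : ∀ y, (h1.toSchwartzMap h2) y = φ.normed (volume : Measure (V d)) y := fun y => rfl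
  refine ⟨h1.toSchwartzMap h2, fun y => ?_, ?_, fun y hy => ?_, ?_, ?_⟩
  · rw [e]; exact φ.nonneg_normed y
  · simp only [e]; exact φ.integral_normed
  · rw [e] at hy
    have h4 : y ∈ closedBall x r := by
      rw [← h3]
      exact subset_tsupport _ hy
    rw [← dist_eq_norm]
    exact h4
  · exact h1
  · exact h3.le

lemma isClosed_diag (d n : ℕ) : IsClosed (Diag d n) := by
  have h : Diag d n = ⋃ i, ⋃ j, ⋃ (_ : i ≠ j), {x : Fin n → V d | x i = x j} := by
    ext x
    simp only [Diag, Set.mem_ofPred_eq, Set.mem_iUnion, exists_prop]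
  rw [h]
  refine isClosed_iUnion_of_finite (fun i => isClosed_iUnion_of_finite (fun j =>
    isClosed_iUnion_of_finite (fun _ => ?_)))
  exact isClosed_eq (continuous_apply i) (continuous_apply j)

/-- an average of a kernel is at most its maximum -/
lemma avg_le (f g : S d) (hf0 : ∀ y, 0 ≤ f y) (hg0 : ∀ y, 0 ≤ g y) (hf1 : ∫ y, f y = 1)
    (hg1 : ∫ y, g y = 1) (K : V d → V d → ℝ) (hK : ∀ y z, 0 ≤ K y z) (M : ℝ)
    (hM : ∀ y z, f y ≠ 0 → g z ≠ 0 → K y z ≤ M) :
    ∫ y, ∫ z, K y z * (f y * g z) ≤ M := by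
  have hfi : Integrable (fun y => f y) := f.integrable (μ := volume)
  have hgi : Integrable (fun y => g y) := g.integrable (μ := volume)
  have h1 : ∀ y z, K y z * (f y * g z) ≤ M * (f y * g z) := by
    intro y z
    by_cases h0 : f y * g z = 0
    · rw [h0, mul_zero, mul_zero]
    · exact mul_le_mul_of_nonneg_right
        (hM y z (left_ne_zero_of_mul h0) (right_ne_zero_of_mul h0))
        (mul_nonneg (hf0 y) (hg0 z))
  have h2 : ∀ y, ∫ z, K y z * (f y * g z) ≤ M * f y := by
    intro y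
    have h3 : ∫ z, K y z * (f y * g z) ≤ ∫ z, M * (f y * g z) := by
      apply integral_mono_of_nonneg
      · exact Eventually.of_forall (fun z => mul_nonneg (hK y z) (mul_nonneg (hf0 y) (hg0 z)))
      · exact (hgi.const_mul (f y)).const_mul M
      · exact Eventually.of_forall (fun z => h1 y z)
    refine h3.trans ?_
    rw [integral_const_mul, integral_const_mul, hg1, mul_one]
  have h4 : ∫ y, ∫ z, K y z * (f y * g z) ≤ ∫ y, M * f y := by
    apply integral_mono_of_nonneg
    · exact Eventually.of_forall (fun y => integral_nonneg (fun z =>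
        mul_nonneg (hK y z) (mul_nonneg (hf0 y) (hg0 z))))
    · exact hfi.const_mul M
    · exact Eventually.of_forall h2
  refine h4.trans ?_
  rw [integral_const_mul, hf1, mul_one]

/-- a weighted average is close to the value at the point -/
lemma avg_close {n : ℕ} (s : (Fin n → V d) → ℝ) (hs : ContinuousOn s (Diag d n)ᶜ)
    (x : Fin n → V d) (f : Fin n → S d) (hf0 : ∀ i y, 0 ≤ f i y) (hf1 : ∀ i, ∫ y, f i y = 1)
    {r ε : ℝ} (hfs : ∀ i y, f i y ≠ 0 → ‖y - x i‖ ≤ r)
    (hr : ∀ y : Fin n → V d, (∀ i, ‖y i - x i‖ ≤ r) → y ∉ Diag d n ∧ |s y - s x| ≤ ε) :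
    |(∫ y in (Diag d n)ᶜ, s y * ∏ i, f i (y i)) - s x| ≤ ε := by
  have hmeas : MeasurableSet (Diag d n)ᶜ := (isClosed_diag d n).measurableSet.compl
  have hF0 : ∀ y : Fin n → V d, 0 ≤ ∏ i, f i (y i) :=
    fun y => Finset.prod_nonneg (fun i _ => hf0 i (y i))
  have hFi : Integrable (fun y : Fin n → V d => ∏ i, f i (y i)) :=
    Integrable.fintype_prod (fun i => (f i).integrable (μ := volume))
  have hF1 : ∫ y : Fin n → V d, ∏ i, f i (y i) = 1 := by
    rw [integral_fintype_prod_volume_eq_prod (f := fun i (y : V d) => f i y)]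
    simp only [hf1, Finset.prod_const_one]
  have hsup : ∀ y : Fin n → V d, ∏ i, f i (y i) ≠ 0 → y ∉ Diag d n ∧ |s y - s x| ≤ ε := by
    intro y hy
    apply hr
    intro i
    apply hfs
    exact Finset.prod_ne_zero_iff.1 hy i (Finset.mem_univ i)
  have hF1' : ∫ y in (Diag d n)ᶜ, ∏ i, f i (y i) = 1 := by
    rw [← hF1]
    apply setIntegral_eq_integral_of_forall_compl_eq_zero
    intro y hy
    by_contra h0
    exact hy (hsup y h0).1
  have hFi' : Integrable (fun y : Fin n → V d => ∏ i, f i (y i))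
      (volume.restrict (Diag d n)ᶜ) := hFi.restrict
  have hsm : AEStronglyMeasurable s (volume.restrict (Diag d n)ᶜ) :=
    hs.aestronglyMeasurable hmeas
  have hsF : Integrable (fun y : Fin n → V d => s y * ∏ i, f i (y i))
      (volume.restrict (Diag d n)ᶜ) := by
    refine Integrable.mono' (hFi'.const_mul (|s x| + ε)) (hsm.mul hFi'.1)
      (Eventually.of_forall (fun y => ?_))
    rw [norm_mul, Real.norm_eq_abs, Real.norm_eq_abs, abs_of_nonneg (hF0 y)]
    by_cases h0 : ∏ i, f i (y i) = 0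
    · rw [h0, mul_zero, mul_zero]
    · apply mul_le_mul_of_nonneg_right _ (hF0 y)
      have h1 := (hsup y h0).2
      have h2 := abs_sub_abs_le_abs_sub (s y) (s x)
      linarith
  have e1 : (∫ y in (Diag d n)ᶜ, s y * ∏ i, f i (y i)) - s x =
      ∫ y in (Diag d n)ᶜ, (s y - s x) * ∏ i, f i (y i) := by
    have e2 : s x = ∫ y in (Diag d n)ᶜ, s x * ∏ i, f i (y i) := by
      rw [integral_const_mul, hF1', mul_one]
    conv_lhs => rw [e2]
    rw [← integral_sub hsF (hFi'.const_mul (s x))]
    apply integral_congr_ae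
    exact Eventually.of_forall (fun y => by simp only; ring)
  rw [e1, ← Real.norm_eq_abs]
  have h3 : ∀ y : Fin n → V d, ‖(s y - s x) * ∏ i, f i (y i)‖ ≤ ε * ∏ i, f i (y i) := by
    intro y
    rw [norm_mul, Real.norm_eq_abs, Real.norm_eq_abs, abs_of_nonneg (hF0 y)]
    by_cases h0 : ∏ i, f i (y i) = 0
    · rw [h0, mul_zero, mul_zero]
    · exact mul_le_mul_of_nonneg_right (hsup y h0).2 (hF0 y)
  refine (norm_integral_le_of_norm_le (hFi'.const_mul ε) (Eventually.of_forall h3)).trans ?_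
  rw [integral_const_mul, hF1', mul_one]

/-- small neighbourhoods -/
lemma exists_radius {n : ℕ} (a c : ℝ) (s : (Fin n → V d) → ℝ)
    (hs : ContinuousOn s (Diag d n)ᶜ) (x : Fin n → V d) (hx : x ∉ Diag d n) {ε : ℝ}
    (hε : 0 < ε) :
    ∃ r : ℝ, 0 < r ∧
      (∀ y : Fin n → V d, (∀ i, ‖y i - x i‖ ≤ r) → y ∉ Diag d n ∧ |s y - s x| ≤ ε) ∧
      ∀ i j, i ≠ j → ∀ y z : V d, ‖y - x i‖ ≤ r → ‖z - x j‖ ≤ r →
        y ≠ z ∧ c * ‖y - z‖ ^ (-(2 * a)) ≤ c * ‖x i - x j‖ ^ (-(2 * a)) + ε := by
  have hopen : IsOpen (Diag d n)ᶜ := (isClosed_diag d n).isOpen_compl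
  have h1 : ∀ᶠ r in 𝓝[>] (0 : ℝ), ∀ y : Fin n → V d, (∀ i, ‖y i - x i‖ ≤ r) →
      y ∉ Diag d n ∧ |s y - s x| ≤ ε := by
    have hc : ContinuousAt s x := hs.continuousAt (hopen.mem_nhds hx)
    have h2 : ∀ᶠ y in 𝓝 x, y ∉ Diag d n ∧ |s y - s x| ≤ ε := by
      refine (hopen.eventually_mem hx).and ?_
      have := (Metric.continuousAt_iff'.1 hc) ε hε
      filter_upwards [this] with y hy
      rw [Real.dist_eq] at hy
      exact hy.le
    obtain ⟨ρ, hρ, h3⟩ := Metric.eventually_nhds_iff.1 h2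
    filter_upwards [Ioo_mem_nhdsGT hρ] with r hr y hy
    apply h3
    rw [dist_pi_lt_iff hρ]
    intro i
    rw [dist_eq_norm]
    exact lt_of_le_of_lt (hy i) hr.2
  have h2 : ∀ᶠ r in 𝓝[>] (0 : ℝ), ∀ i j, i ≠ j → ∀ y z : V d, ‖y - x i‖ ≤ r → ‖z - x j‖ ≤ r →
        y ≠ z ∧ c * ‖y - z‖ ^ (-(2 * a)) ≤ c * ‖x i - x j‖ ^ (-(2 * a)) + ε := by
    rw [eventually_all]
    intro i
    rw [eventually_all]
    intro j
    by_cases hij : i = j
    · exact Eventually.of_forall (fun r h => absurd hij h)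
    · have hne : x i ≠ x j := fun h => hx ⟨i, j, hij, h⟩
      have hcont : ContinuousAt (fun p : V d × V d => c * ‖p.1 - p.2‖ ^ (-(2 * a)))
          (x i, x j) := by
        apply ContinuousAt.mul continuousAt_const
        apply ContinuousAt.rpow_const
        · exact (continuous_fst.sub continuous_snd).norm.continuousAt
        · left
          exact norm_ne_zero_iff.2 (sub_ne_zero.2 hne)
      have h3 : ∀ᶠ p in 𝓝 (x i, x j), (p.1 ≠ p.2 ∧
          c * ‖p.1 - p.2‖ ^ (-(2 * a)) ≤ c * ‖x i - x j‖ ^ (-(2 * a)) + ε) := by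
        refine ((isOpen_ne_fun continuous_fst continuous_snd).eventually_mem hne).and ?_
        have := (Metric.continuousAt_iff'.1 hcont) ε hε
        filter_upwards [this] with p hp
        rw [Real.dist_eq, abs_lt] at hp
        linarith [hp.2]
      obtain ⟨ρ, hρ, h4⟩ := Metric.eventually_nhds_iff.1 h3
      filter_upwards [Ioo_mem_nhdsGT hρ] with r hr _ y z hy hz
      have h5 : dist (y, z) (x i, x j) < ρ := by
        rw [Prod.dist_eq, max_lt_iff, dist_eq_norm, dist_eq_norm]
        exact ⟨lt_of_le_of_lt hy hr.2, lt_of_le_of_lt hz hr.2⟩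
      exact h4 h5
  obtain ⟨r, ⟨hr1, hr2⟩, hr3⟩ := ((h1.and h2).and self_mem_nhdsWithin).exists
  exact ⟨r, hr3, hr1, hr2⟩

/-- Row PTB. -/
theorem pf_PTB (hPRB : T_PRB) : T_PTB := by
  intro d a c μ _ hD hT n s hs x hx
  obtain ⟨hc0, hT2⟩ := hT
  have hcont : ContinuousOn s (Diag d n)ᶜ := hs.1.continuousOn
  -- the two estimates with an error
  have key : ∀ ε : ℝ, 0 < ε → -ε ≤ s x ∧
      s x ≤ pair (fun i j => c * ‖x i - x j‖ ^ (-(2 * a)) + ε) Finset.univ + ε := by
    intro ε hε
    obtain ⟨r, hr, hr1, hr2⟩ := exists_radius a c s hcont x hx hε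
    choose f hf0 hf1 hfs hfc hft using fun i => exists_bump (x i) hr
    have hdisj : ∀ i j, i ≠ j → Disjoint (tsupport (f i)) (tsupport (f j)) := by
      intro i j hij
      rw [Set.disjoint_left]
      intro z hz1 hz2
      have h1 := hft i hz1
      have h2 := hft j hz2
      rw [mem_closedBall, dist_eq_norm] at h1 h2
      exact (hr2 i j hij z z h1 h2).1 rfl
    have hmom : moment μ f = ∫ y in (Diag d n)ᶜ, s y * ∏ i, f i (y i) := hs.2 f hfc hdisj
    have hclose := avg_close s hcont x f hf0 hf1 hfs hr1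
    rw [← hmom, abs_le] at hclose
    have hpos : 0 ≤ moment μ f := hD.pos n f hf0
    have hup : moment μ f ≤ pair (fun i j => c * ‖x i - x j‖ ^ (-(2 * a)) + ε) Finset.univ := by
      refine (hD.gau n f hf0).trans ?_
      refine (hPRB.mono n _ _ Finset.univ ?_ ?_).2
      · intro i _ j _ _
        apply hD.pos
        intro l y
        fin_cases l
        · exact hf0 i y
        · exact hf0 j y
      · intro i _ j _ hij
        rw [hT2 (f i) (f j) (hfc i) (hfc j) (hdisj i j hij)]
        apply avg_le (f i) (f j) (hf0 i) (hf0 j) (hf1 i) (hf1 j)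
          (fun y z => c * ‖y - z‖ ^ (-(2 * a)))
        · intro y z
          exact mul_nonneg hc0 (Real.rpow_nonneg (norm_nonneg _) _)
        · intro y z hy hz
          exact (hr2 i j hij y z (hfs i y hy) (hfs j z hz)).2
    constructor
    · linarith [hclose.2]
    · linarith [hclose.1]
  constructor
  · by_contra hcon
    push Not at hcon
    have := (key (-(s x) / 2) (by linarith)).1
    linarith
  · have h1 : Tendsto (fun ε : ℝ => pair (fun i j : Fin n =>
        c * ‖x i - x j‖ ^ (-(2 * a)) + ε) Finset.univ + ε) (𝓝[>] 0)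
        (𝓝 (pair (fun i j : Fin n => c * ‖x i - x j‖ ^ (-(2 * a))) Finset.univ)) := by
      have h2 : Continuous (fun ε : ℝ => pair (fun i j : Fin n =>
          c * ‖x i - x j‖ ^ (-(2 * a)) + ε) Finset.univ + ε) := by
        apply Continuous.add _ continuous_id
        apply (hPRB.cont n Finset.univ).comp
        exact continuous_pi (fun i => continuous_pi (fun j =>
          continuous_const.add continuous_id))
      have h3 := (h2.tendsto 0).mono_left (nhdsWithin_le_nhds (s := Set.Ioi (0 : ℝ)))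
      simpa only [add_zero] using h3
    refine ge_of_tendsto h1 ?_
    filter_upwards [self_mem_nhdsWithin] with ε hε
    exact (key ε hε).2

end Pool.Agent.H19.LD
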