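import Pool.Agent.H80.LD.Targets
import Pool.Agent.H98.DPC.HOL

/-!
Row MCV of the board ldp_modules (MP_47c37b_mp): convergence of the mollified moments, off the
diagonal.
-/

set_option autoImplicit false

open MeasureTheory SchwartzMap Filter Topology Metric
open scoped ENNReal

namespace Pool.Agent.H19.LD

open Pool.Agent.H43.DPC (V S SD moment trans rot IsMAO Diag)
open Pool.Agent.H80.LD

variable {d : ℕ}

/-- a mollified function is close to the function -/
lemma conv_close (f ρ h : S d) (hρ0 : ∀ x, 0 ≤ ρ x) (hρ1 : ∫ x, ρ x = 1) {r ε : ℝ}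
    (hρs : ∀ x, ρ x ≠ 0 → ‖x‖ ≤ r) (hf : ∀ x y : V d, ‖x - y‖ ≤ r → |f y - f x| ≤ ε)
    (hh : ∀ x, h x = ∫ y, f y * ρ (x - y)) (x : V d) : |h x - f x| ≤ ε := by
  have hρi : Integrable (fun y : V d => ρ (x - y)) := (ρ.integrable (μ := volume)).comp_sub_left x
  obtain ⟨C, hC⟩ : ∃ C : ℝ, ∀ y, ‖f y‖ ≤ C := by
    obtain ⟨C, -, hC⟩ := f.decay 0 0
    refine ⟨C, fun y => ?_⟩
    have := hC y
    simpa using this
  have hfi : Integrable (fun y : V d => f y * ρ (x - y)) :=
    hρi.bdd_mul f.continuous.aestronglyMeasurable (Eventually.of_forall hC)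
  have h1 : ∫ y : V d, ρ (x - y) = 1 := by
    rw [integral_sub_left_eq_self (fun y => ρ y) volume x]
    exact hρ1
  have h2 : h x - f x = ∫ y, (f y - f x) * ρ (x - y) := by
    rw [hh x]
    have e1 : f x = ∫ y, f x * ρ (x - y) := by
      rw [integral_const_mul, h1, mul_one]
    conv_lhs => rw [e1]
    rw [← integral_sub hfi (hρi.const_mul (f x))]
    apply integral_congr_ae
    exact Eventually.of_forall (fun y => by simp only; ring)
  rw [h2, ← Real.norm_eq_abs]
  have h3 : ∀ y, ‖(f y - f x) * ρ (x - y)‖ ≤ ε * ρ (x - y) := by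
    intro y
    rw [norm_mul, Real.norm_eq_abs, Real.norm_eq_abs, abs_of_nonneg (hρ0 _)]
    by_cases hy : ρ (x - y) = 0
    · rw [hy, mul_zero, mul_zero]
    · exact mul_le_mul_of_nonneg_right (hf x y (hρs _ hy)) (hρ0 _)
  refine (norm_integral_le_of_norm_le (hρi.const_mul ε) (Eventually.of_forall h3)).trans ?_
  rw [integral_const_mul, h1, mul_one]

/-- the support of a mollified function -/
lemma conv_supp (f ρ h : S d) {r : ℝ} (hρs : ∀ x, ρ x ≠ 0 → ‖x‖ ≤ r)
    (hh : ∀ x, h x = ∫ y, f y * ρ (x - y)) : tsupport h ⊆ cthickening r (tsupport f) := by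
  apply closure_minimal _ isClosed_cthickening
  intro x hx
  rw [Function.mem_support, hh x] at hx
  have h1 : ∃ y, f y * ρ (x - y) ≠ 0 := by
    by_contra hcon
    push Not at hcon
    apply hx
    simp only [hcon, integral_zero]
  obtain ⟨y, hy⟩ := h1
  have hy1 : f y ≠ 0 := left_ne_zero_of_mul hy
  have hy2 : ρ (x - y) ≠ 0 := right_ne_zero_of_mul hy
  apply mem_cthickening_of_dist_le x y r _ (subset_tsupport _ hy1)
  rw [dist_eq_norm]
  exact hρs _ hy2

/-- separated compact supports -/
lemma exists_sep {n : ℕ} (f : Fin n → S d) (hc : ∀ i, HasCompactSupport (f i))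
    (hd : ∀ i j, i ≠ j → Disjoint (tsupport (f i)) (tsupport (f j))) :
    ∃ δ : ℝ, 0 < δ ∧ ∀ i j, i ≠ j → ∀ x ∈ tsupport (f i), ∀ y ∈ tsupport (f j),
      3 * δ ≤ ‖x - y‖ := by
  have h1 : ∀ i j, ∀ᶠ δ in 𝓝[>] (0 : ℝ), i ≠ j → ∀ x ∈ tsupport (f i), ∀ y ∈ tsupport (f j),
      3 * δ ≤ ‖x - y‖ := by
    intro i j
    by_cases hij : i = j
    · exact Eventually.of_forall (fun δ h => absurd hij h)
    · obtain ⟨r, hr, h⟩ := exists_pos_forall_lt_edist (hc i) (isClosed_tsupport (f j)) (hd i j hij)
      have hr' : (0 : ℝ) < (r : ℝ) / 3 := by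
        have : (0 : ℝ) < r := NNReal.coe_pos.2 hr
        positivity
      filter_upwards [Ioo_mem_nhdsGT hr'] with δ hδ _ x hx y hy
      have h2 := h x hx y hy
      rw [edist_dist, ← ENNReal.ofReal_coe_nnreal] at h2
      have h3 : (r : ℝ) < dist x y := by
        by_contra hcon
        push Not at hcon
        exact absurd h2 (not_lt.2 (ENNReal.ofReal_le_ofReal hcon))
      rw [← dist_eq_norm]
      have := hδ.2
      linarith
  have h2 : ∀ᶠ δ in 𝓝[>] (0 : ℝ), ∀ i j, i ≠ j → ∀ x ∈ tsupport (f i), ∀ y ∈ tsupport (f j),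
      3 * δ ≤ ‖x - y‖ := by
    rw [eventually_all]
    intro i
    rw [eventually_all]
    intro j
    exact h1 i j
  obtain ⟨δ, hδ1, hδ2⟩ := (h2.and self_mem_nhdsWithin).exists
  exact ⟨δ, hδ2, hδ1⟩

/-- functions supported near the supports are separated -/
lemma sepS_of_near {n : ℕ} (f g : Fin n → S d) (hc : ∀ i, HasCompactSupport (f i)) {δ : ℝ}
    (hδ : 0 < δ) (hs : ∀ i j, i ≠ j → ∀ x ∈ tsupport (f i), ∀ y ∈ tsupport (f j),
      3 * δ ≤ ‖x - y‖) (hg : ∀ i, tsupport (g i) ⊆ cthickening δ (tsupport (f i))) :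
    SepS δ g := by
  refine ⟨fun i => ?_, ?_⟩
  · have h1 : IsCompact (cthickening δ (tsupport (f i))) := IsCompact.cthickening (hc i)
    exact h1.of_isClosed_subset (isClosed_tsupport _) (hg i)
  · intro i j hij x hx y hy
    have hx' := hg i hx
    have hy' := hg j hy
    rw [IsCompact.cthickening_eq_biUnion_closedBall (hc i) hδ.le] at hx'
    rw [IsCompact.cthickening_eq_biUnion_closedBall (hc j) hδ.le] at hy'
    simp only [Set.mem_iUnion, mem_closedBall, exists_prop] at hx' hy'
    obtain ⟨x', hx1, hx2⟩ := hx'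
    obtain ⟨y', hy1, hy2⟩ := hy'
    have h3 := hs i j hij x' hx1 y' hy1
    rw [← dist_eq_norm] at h3 ⊢
    have h4 := dist_triangle4 x' x y y'
    rw [dist_comm x' x] at h4
    linarith

/-- integrals of functions with supports in one compact set -/
lemma integral_abs_le (u : S d) {K : Set (V d)} (hK : IsCompact K) (hu : tsupport u ⊆ K) {ε : ℝ}
    (hε : ∀ x, |u x| ≤ ε) : ∫ x, |u x| ≤ ε * (volume K).toReal := by
  have h1 : ∫ x, |u x| = ∫ x in K, |u x| := by
    symm
    apply setIntegral_eq_integral_of_forall_compl_eq_zero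
    intro x hx
    have : u x = 0 := by
      by_contra h0
      exact hx (hu (subset_tsupport _ h0))
    rw [this, abs_zero]
  rw [h1]
  have h2 := norm_setIntegral_le_of_norm_le_const (μ := (volume : Measure (V d)))
    (s := K) (f := fun x => |u x|) (C := ε) hK.measure_lt_top
    (fun x _ => by rw [Real.norm_eq_abs, abs_abs]; exact hε x)
  exact (le_abs_self _).trans (by rw [← Real.norm_eq_abs]; exact h2)

/-- Row MCV. -/
theorem pf_MCV : T_MCV := by
  intro d μ _ hM hL n f hc hd ρ h hρ0 hρ1 hρs hh
  classical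
  obtain ⟨M, hMM⟩ := (Pool.Agent.H43.DPC.HOL d μ hM).2.1 n
  obtain ⟨δ, hδ, hs⟩ := exists_sep f hc hd
  obtain ⟨K, hK, hKb⟩ := hL n δ hδ
  have hrad : Tendsto (fun k : ℕ => 1 / ((k : ℝ) + 1)) atTop (𝓝 0) :=
    tendsto_one_div_add_atTop_nhds_zero_nat
  -- the supports
  have hsup : ∀ᶠ k in atTop, ∀ i, tsupport (h k i) ⊆ cthickening δ (tsupport (f i)) := by
    filter_upwards [hrad.eventually (gt_mem_nhds hδ)] with k hk i
    refine (conv_supp (f i) (ρ k) (h k i) (hρs k) (hh k i)).trans ?_
    exact cthickening_mono hk.le _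
  -- uniform convergence
  have huni : ∀ ε : ℝ, 0 < ε → ∀ᶠ k in atTop, ∀ i, ∀ x, |h k i x - f i x| ≤ ε := by
    intro ε hε
    rw [eventually_all]
    intro i
    have huc : UniformContinuous (f i) :=
      Continuous.uniformContinuous_of_tendsto_cocompact (f i).continuous (hc i).is_zero_at_infty
    rw [Metric.uniformContinuous_iff] at huc
    obtain ⟨η, hη, hη2⟩ := huc ε hε
    filter_upwards [hrad.eventually (gt_mem_nhds hη)] with k hk
    apply conv_close (f i) (ρ k) (h k i) (hρ0 k) (hρ1 k) (hρs k) _ (hh k i)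
    intro x y hxy
    have h3 : dist y x < η := by
      rw [dist_comm, dist_eq_norm]
      exact lt_of_le_of_lt hxy hk
    have h4 := hη2 h3
    rw [Real.dist_eq] at h4
    exact h4.le
  -- convergence of the integrals
  have hint : ∀ i, Tendsto (fun k => ∫ x, |(h k i - f i) x|) atTop (𝓝 0) := by
    intro i
    have hKc : IsCompact (cthickening δ (tsupport (f i))) := IsCompact.cthickening (hc i)
    rw [Metric.tendsto_atTop]
    intro ε hε
    set v : ℝ := (volume (cthickening δ (tsupport (f i)))).toReal with hv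
    have hv0 : 0 ≤ v := ENNReal.toReal_nonneg
    have hev := (huni (ε / (2 * (v + 1))) (by positivity)).and hsup
    obtain ⟨N, hN⟩ := eventually_atTop.1 hev
    refine ⟨N, fun k hk => ?_⟩
    obtain ⟨h1, h2⟩ := hN k hk
    have h3 : ∫ x, |(h k i - f i) x| ≤ ε / (2 * (v + 1)) * v := by
      apply integral_abs_le _ hKc
      · refine (tsupport_sub _ _).trans ?_
        exact Set.union_subset (h2 i) (self_subset_cthickening _)
      · intro x
        exact h1 i x
    have h4 : ε / (2 * (v + 1)) * v < ε := by
      rw [div_mul_eq_mul_div, div_lt_iff₀ (by positivity)]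
      nlinarith
    rw [Real.dist_eq, sub_zero, abs_of_nonneg (integral_nonneg (fun x => abs_nonneg _))]
    linarith
  have hint1 : ∀ᶠ k in atTop, ∀ i, ∫ x, |h k i x| ≤ (∫ x, |f i x|) + 1 := by
    rw [eventually_all]
    intro i
    filter_upwards [(hint i).eventually (gt_mem_nhds (zero_lt_one' ℝ))] with k hk
    have h1 : Integrable (fun x => |(h k i - f i) x|) :=
      ((h k i - f i).integrable (μ := volume)).abs
    have h2 : Integrable (fun x => |f i x|) := ((f i).integrable (μ := volume)).abs
    have h3 : ∫ x, |h k i x| ≤ ∫ x, (|(h k i - f i) x| + |f i x|) := by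
      apply integral_mono ((h k i).integrable (μ := volume)).abs (h1.add h2)
      intro x
      simp only [sub_apply]
      have := abs_add_le (h k i x - f i x) (f i x)
      rw [sub_add_cancel] at this
      exact this
    rw [integral_add h1 h2] at h3
    linarith
  -- induction over the slots
  have key : ∀ s : Finset (Fin n),
      Tendsto (fun k => M (s.piecewise (h k) f)) atTop (𝓝 (M f)) := by
    intro s
    induction s using Finset.induction_on with
    | empty =>
      simp only [Finset.piecewise_empty]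
      exact tendsto_const_nhds
    | insert a s ha ih =>
      have e1 : ∀ k, M ((insert a s).piecewise (h k) f) = M (s.piecewise (h k) f) +
          M (Function.update (s.piecewise (h k) f) a (h k a - f a)) := by
        intro k
        rw [Finset.piecewise_insert, MultilinearMap.map_update_sub]
        have e2 : Function.update (s.piecewise (h k) f) a (f a) = s.piecewise (h k) f := by
          apply Function.update_eq_self_iff.2
          rw [Finset.piecewise_eq_of_notMem _ _ _ ha]
        rw [e2]
        ring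
      simp only [e1]
      rw [← add_zero (M f)]
      apply ih.add
      set C : ℝ := ∏ i ∈ Finset.univ.erase a, ((∫ x, |f i x|) + 1) with hC
      have hb : Tendsto (fun k => K * (C * ∫ x, |(h k a - f a) x|)) atTop (𝓝 0) := by
        have := ((hint a).const_mul C).const_mul K
        simpa using this
      apply squeeze_zero_norm' _ hb
      filter_upwards [hsup, hint1] with k hk1 hk2
      set g : Fin n → S d := Function.update (s.piecewise (h k) f) a (h k a - f a) with hg
      have hga : g a = h k a - f a := by rw [hg, Function.update_self]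
      have hgi : ∀ i, i ≠ a → g i = h k i ∨ g i = f i := by
        intro i hi
        rw [hg, Function.update_of_ne hi]
        by_cases his : i ∈ s
        · left; rw [Finset.piecewise_eq_of_mem _ _ _ his]
        · right; rw [Finset.piecewise_eq_of_notMem _ _ _ his]
      have hgs : ∀ i, tsupport (g i) ⊆ cthickening δ (tsupport (f i)) := by
        intro i
        by_cases hi : i = a
        · subst hi
          rw [hga]
          refine (tsupport_sub _ _).trans ?_
          exact Set.union_subset (hk1 i) (self_subset_cthickening _)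
        · rcases hgi i hi with h1 | h1
          · rw [h1]; exact hk1 i
          · rw [h1]; exact self_subset_cthickening _
      have h1 := hKb g (sepS_of_near f g hc hδ hs hgs)
      rw [hMM, Real.norm_eq_abs]
      refine h1.trans (mul_le_mul_of_nonneg_left ?_ hK)
      rw [← Finset.mul_prod_erase _ _ (Finset.mem_univ a), hga, mul_comm]
      apply mul_le_mul_of_nonneg_right _ (integral_nonneg (fun x => abs_nonneg _))
      apply Finset.prod_le_prod
      · intro i _
        exact integral_nonneg (fun x => abs_nonneg _)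
      · intro i hi
        rcases hgi i (Finset.ne_of_mem_erase hi) with h2 | h2
        · rw [h2]; exact hk2 i
        · rw [h2]; linarith
  have hfin := key Finset.univ
  simp only [Finset.piecewise_univ, hMM] at hfin
  exact hfin

end Pool.Agent.H19.LD
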