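import Pool.Agent.H80.LD.Targets

/-!
Row POS of the board ldp_modules (MP_47c37b_mp): the correlation inequalities for the limit.
-/

set_option autoImplicit false

open MeasureTheory SchwartzMap Filter Topology

namespace Pool.Agent.H19.LD

open Pool.Agent.H43.DPC (V S SD moment trans rot IsMAO Diag)
open Pool.Agent.H80.LD

lemma moment_eq_ml {d n : ℕ} (μ : Measure (SD d)) (f : Fin n → S d) :
    moment μ f = ml μ (List.ofFn f) := by
  unfold moment ml
  apply integral_congr_ae
  refine Eventually.of_forall (fun T => ?_)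
  simp only [List.map_ofFn, List.prod_ofFn, Function.comp]

lemma moment_pair_eq_ml {d : ℕ} (μ : Measure (SD d)) (f g : S d) :
    moment μ ![f, g] = ml μ [f, g] := by
  rw [moment_eq_ml]
  congr 1

/-- Row POS. -/
theorem pf_POS (hLMO : T_LMO) (hGAF : T_GAF) (hPRB : T_PRB) : T_POS := by
  intro d e A μ hμ hlim
  obtain ⟨hmao, hT⟩ := hLMO d e A μ hlim
  refine ⟨hmao, ?_, ?_, ?_, ?_⟩
  · intro n f hf
    rw [moment_eq_ml]
    refine ge_of_tendsto' (hT (List.ofFn f)) (fun k => ?_)
    apply hGAF.pos
    intro g hg
    rw [List.mem_ofFn] at hg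
    obtain ⟨i, rfl⟩ := hg
    exact hf i
  · intro n f h hfh
    rw [moment_eq_ml, moment_eq_ml]
    exact le_of_tendsto_of_tendsto' (hT (List.ofFn f)).abs (hT (List.ofFn h))
      (fun k => hGAF.maj d e (A k) n f h hfh)
  · intro n h hh
    rw [moment_eq_ml]
    have h1 : Tendsto (fun k => pair (fun i j : Fin n => mf (A k) [h i, h j]) Finset.univ) atTop
        (𝓝 (pair (fun i j : Fin n => moment μ ![h i, h j]) Finset.univ)) := by
      have hc := hPRB.cont n (Finset.univ : Finset (Fin n))
      have h2 : Tendsto (fun k => (fun i j : Fin n => mf (A k) [h i, h j])) atTop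
          (𝓝 (fun i j : Fin n => moment μ ![h i, h j])) := by
        rw [tendsto_pi_nhds]
        intro i
        rw [tendsto_pi_nhds]
        intro j
        rw [moment_pair_eq_ml]
        exact hT [h i, h j]
      exact (hc.tendsto _).comp h2
    exact le_of_tendsto_of_tendsto' (hT (List.ofFn h)) h1
      (fun k => hGAF.gau d e (A k) n h hh)
  · intro n hn f
    rw [moment_eq_ml]
    refine tendsto_nhds_unique (hT (List.ofFn f)) ?_
    have h1 : ∀ k, mf (A k) (List.ofFn f) = 0 := by
      intro k
      apply hGAF.odd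
      rw [List.length_ofFn]
      exact hn
    simp only [h1]
    exact tendsto_const_nhds

end Pool.Agent.H19.LD
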